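import Pool.Agent.N694.NB.Nar
import Pool.Agent.N694.BR.Abs

/-!
# Almost all vectors in a Bohr set: prime tuples along narrow arithmetic progressions

The question is about the vectors `(2, 6)` and `(2, 6, 8)` of shifts. Let `b` be coprime to `q ≥ 1`, and call a
vector `h` of `k` integers good if for every length `l` and every radius `R` there is `C` such that for
arbitrarily large `x` and for every `J ⊆ {0, ..., k}` there is a difference `1 ≤ D ≤ (log x)^C` such that for at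
least `x / (log x)^C` of the `m ≤ x`, each of the `l` numbers `n = m, m + D, ..., m + (l - 1) D` is
`≡ b (mod q)`, of the numbers `n, n + h_1, ..., n + h_k` exactly those with index in `J` are prime, and all
primes at distance at most `R` from `n` are `≡ b (mod q)`.

For all `k`, `s` and `ε > 0` there are `d` and `ρ, δ > 0` such that for all `q`, `b` there are `M` and `n₀` such
that for EVERY multiple `N` of `M` and every `H ≥ n₀` there are real numbers `θ_1, ..., θ_d'`, `d' ≤ d`, and a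
radius `ρ ≤ r ≤ 1` such that the Bohr set

  `B = { t : |t| ≤ H, |exp (2 π i θ_j t) - 1| ≤ r for all j }`

has at least `δ H` elements, and for all but at most `ε |B|^k` of the vectors `y ∈ B^k` all the vectors
`N T y`, `T` a nonsingular integer matrix with entries at most `s` in absolute value, are good. For `k = 2`
and `k = 3`, for instance, almost all of the triples and quadruples of shifts `0, N y_1, N (y_1 + y_2)` and
`0, N y_1, N (y_1 + y_2), N (y_1 + y_2 + y_3)`.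

Proof: the coloured Maynard-Tao theorem with all patterns along narrow progressions
(`Pool.Agent.Y827.HN.patRD`, starting files), the theorem on almost cliques of a hereditary family
(`Pool.Agent.N646.AC.wclique`) and the theorem on returns in Bohr sets (`Pool.Agent.N646.AC.returnsZ`) of
helper646.
-/

set_option autoImplicit false

namespace Pool.Agent.Results.MP_3efbeb_nt.BohrSetsAlongProgressions

open Finset Filter

/-- `n ≡ b` modulo `q`; of the numbers `n + h_0, ..., n + h_k` exactly those with index in `J` are prime; and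
all primes at distance at most `R` from `n` are `≡ b` modulo `q` -/
def Pattern (q : ℕ) (b : ℤ) (R : ℕ) {k : ℕ} (h : Fin (k + 1) → ℤ) (J : Finset (Fin (k + 1))) (n : ℕ) :
    Prop :=
  (n : ℤ) ≡ b [ZMOD q] ∧ (∀ i, ((n : ℤ) + h i).toNat.Prime ↔ i ∈ J) ∧
    ∀ p : ℕ, p.Prime → |(p : ℤ) - n| ≤ R → (p : ℤ) ≡ b [ZMOD q]

/-- for every length `l` and every radius `R` there is `C` such that for arbitrarily large `x` every pattern `J`
has a difference `1 ≤ D ≤ (log x)^C` for which at least `x / (log x)^C` of the `1 ≤ m ≤ x` are such that the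
pattern `J` occurs at all the numbers `m, m + D, ..., m + (l - 1) D` -/
def Good (q : ℕ) (b : ℤ) {k : ℕ} (h : Fin k → ℤ) : Prop :=
  ∀ l R : ℕ, ∃ C : ℕ, ∃ᶠ x : ℕ in atTop, ∀ J : Finset (Fin (k + 1)), ∃ D : ℕ, 1 ≤ D ∧
    (D : ℝ) ≤ (Real.log x) ^ C ∧ (x : ℝ) / (Real.log x) ^ C ≤
      ({m : ℕ | 1 ≤ m ∧ m ≤ x ∧ ∀ j < l,
        Pattern q b R (Fin.cons 0 h : Fin (k + 1) → ℤ) J (m + j * D)}.ncard : ℝ)

open Classical in
/-- the Bohr set of the integers `|t| ≤ H` with `|exp (2πiθt) - 1| ≤ r` for all `θ ∈ Θ` -/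
noncomputable def bohrSet (Θ : Finset ℝ) (r : ℝ) (H : ℕ) : Finset ℤ :=
  (Icc (-(H : ℤ)) H).filter (fun t => ∀ θ ∈ Θ,
    ‖Complex.exp (2 * Real.pi * Complex.I * θ * t) - 1‖ ≤ r)

/-- the set of the vectors with `k` coordinates in `B` -/
def vectors (k : ℕ) (B : Finset ℤ) : Finset (Fin k → ℤ) := Fintype.piFinset (fun _ => B)

theorem good_of {q : ℕ} {b : ℤ} {k : ℕ} {h : Fin k → ℤ} (hg : Pool.Agent.N694.NB.GoodN q b h) :
    Good q b h := by
  classical
  intro l R
  obtain ⟨C, hC⟩ := hg l R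
  refine ⟨C, hC.mono fun x hx J => ?_⟩
  obtain ⟨D, h1, h2, h3⟩ := hx J
  refine ⟨D, h1, h2, h3.trans (le_of_eq ?_)⟩
  unfold Pool.Agent.N694.NB.cn
  rw [← Set.ncard_coe_finset]
  congr 2
  ext m
  rw [mem_coe, mem_filter, mem_Icc, Set.mem_ofPred_eq, and_assoc]
  rfl

/-- **Bohr sets of shifts, along narrow progressions.** -/
theorem result (k s : ℕ) (ε : ℝ) (hε : 0 < ε) : ∃ (d : ℕ) (ρ δ : ℝ), 0 < ρ ∧ 0 < δ ∧
    ∀ q : ℕ, 1 ≤ q → ∀ b : ℤ, IsCoprime (q : ℤ) b → ∃ M n₀ : ℕ, 1 ≤ M ∧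
      ∀ N : ℕ, 1 ≤ N → M ∣ N → ∀ H : ℕ, n₀ ≤ H → ∃ (Θ : Finset ℝ) (r : ℝ),
        Θ.card ≤ d ∧ ρ ≤ r ∧ r ≤ 1 ∧ δ * H ≤ (bohrSet Θ r H).card ∧
        ∃ 𝒢 ⊆ vectors k (bohrSet Θ r H),
          ((vectors k (bohrSet Θ r H) \ 𝒢).card : ℝ) ≤ ε * ((bohrSet Θ r H).card : ℝ) ^ k ∧
          ∀ y ∈ 𝒢, ∀ T : Matrix (Fin k) (Fin k) ℤ, (∀ i j, |T i j| ≤ s) → T.det ≠ 0 →
            Good q b (fun i => N * (T.mulVec y) i) := by
  obtain ⟨d, ρ, δ, ε', hρ, hδ, hε', h⟩ := Pool.Agent.N694.BR.bohr k s ε hε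
  refine ⟨d, ρ, δ, hρ, hδ, fun q hq b hb => ?_⟩
  obtain ⟨M, n₀, hM, h1⟩ := h _ (Pool.Agent.N694.NB.cleN k ε' hε' q hq b hb)
  refine ⟨M, n₀, hM, fun N hN hMN H hH => ?_⟩
  obtain ⟨Θ, r, g1, g2, g3, g4, 𝒢, g5, g6, g7⟩ := h1 N hN hMN H hH
  refine ⟨Θ, r, g1, g2, g3, g4, 𝒢, g5, ?_, fun y hy T hT hdet => good_of (g7 y hy T hT hdet).2⟩
  refine le_trans (le_of_eq ?_) g6
  congr 2

end Pool.Agent.Results.MP_3efbeb_nt.BohrSetsAlongProgressions
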