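import Pool.Agent.N646.TT.Tup

set_option autoImplicit false

/-!
# Prime triples, quadruples and `k`-tuples for one third of ALL even first differences

Let `k ≥ 1` and `ε > 0`. There are `c > 0` and `L` such that for all `b ≥ 1` and `H ≥ L`: at least
`(1/3 - ε) H` of the `d ≤ H` have the property that for at least `c H ^ k` of the vectors `t ∈ [-H, H] ^ k`
the numbers `n, n + 2 b d, n + 2 b t_1, …, n + 2 b t_k` are all prime for infinitely many `n`; more precisely for
at least `x / (log x) ^ C` of the `n ≤ 2 x`, for arbitrarily large `x`, with all primes at distance at most `R`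
from `n` congruent to `n` modulo `2 b`.

`k = 1` concerns prime triples, `k = 2` prime quadruples.

Proof: the coloured Maynard-Tao theorem for linear forms (`Pool.Agent.Y827.HN.patR`, starting files: `k + 2` of
any `4 (k + 1)` classes are hit), applied to four groups of `k + 1` classes whose positions have all
differences in the set of the bad `d` (`Pool.Agent.TH899.UG.TD.quad`, starting files, and boxes), and a count
of the configurations which contain one of the few good extensions of a bad `d`.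
-/

namespace Pool.Agent.Results.MP_3efbeb_nt.ExtendOneThird

open Finset Filter

open Classical in
/-- the number of the `1 ≤ n ≤ 2 x` such that `n`, `n + 2 b d` and all `n + 2 b t_i` are (positive) primes and all
primes `q` at distance at most `R` from `n` are congruent to `n` modulo `2 b` -/
noncomputable def tuples {k : ℕ} (b d : ℕ) (t : Fin k → ℤ) (R x : ℕ) : ℕ :=
  ((Icc 1 (2 * x)).filter (fun n : ℕ => n.Prime ∧ (n + 2 * b * d).Prime ∧
    (∀ i, ((n : ℤ) + 2 * b * t i).toNat.Prime) ∧
    ∀ q : ℕ, q.Prime → |(q : ℤ) - (n : ℤ)| ≤ R → ((2 * b : ℕ) : ℤ) ∣ (q : ℤ) - (n : ℤ))).card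

/-- for every `R` there is `C` such that for arbitrarily large `x` the number of tuples is at least
`x / (log x) ^ C` -/
def Good {k : ℕ} (b d : ℕ) (t : Fin k → ℤ) : Prop := ∀ R : ℕ, ∃ C : ℕ, ∃ᶠ x : ℕ in atTop,
    (x : ℝ) / Real.log x ^ C ≤ (tuples b d t R x : ℝ)

open Classical in
/-- the number of the vectors `t` with `k` different coordinates in `[-H, H]`, none of them `0` or `d`, which are
good -/
noncomputable def extensions (k b H d : ℕ) : ℕ :=
  ((Fintype.piFinset (fun _ : Fin k => Icc (-(H : ℤ)) H)).filter (fun t : Fin k → ℤ =>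
    Function.Injective t ∧ (∀ i, t i ≠ 0 ∧ t i ≠ d) ∧ Good b d t)).card

theorem good_of {k : ℕ} {b d : ℕ} {t : Fin k → ℤ} (h : Pool.Agent.N646.TT.GoodT b d t) : Good b d t := by
  classical
  intro R
  obtain ⟨C, hC⟩ := h 1 R
  refine ⟨C, hC.mono fun x hx => ?_⟩
  obtain ⟨D, -, -, h3⟩ := hx
  refine h3.trans ?_
  rw [Nat.cast_le]
  unfold Pool.Agent.N646.TT.tpc tuples
  apply card_le_card
  intro n hn
  obtain ⟨h4, h5⟩ := mem_filter.1 hn
  have h6 := h5 0 one_pos
  rw [Nat.zero_mul, Nat.add_zero] at h6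
  exact mem_filter.2 ⟨h4, h6⟩

open Classical in
theorem result (k : ℕ) (_hk : 1 ≤ k) (ε : ℝ) (hε : 0 < ε) : ∃ c : ℝ, 0 < c ∧ ∃ L : ℕ, ∀ b : ℕ, 1 ≤ b →
    ∀ H : ℕ, L ≤ H → (1 / 3 - ε) * (H : ℝ) ≤
      (((Icc 1 H).filter (fun d : ℕ => c * (H : ℝ) ^ k ≤ (extensions k b H d : ℝ))).card : ℝ) := by
  obtain ⟨c, hc, L, hL⟩ := Pool.Agent.N646.TT.third_tup k ε hε
  refine ⟨c, hc, L, fun b hb H hH => (hL b hb H hH).trans ?_⟩
  rw [Nat.cast_le]
  apply card_le_card
  intro d hd
  obtain ⟨h1, h2⟩ := mem_filter.1 hd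
  refine mem_filter.2 ⟨h1, h2.trans ?_⟩
  rw [Nat.cast_le]
  unfold Pool.Agent.N646.TT.extQ extensions
  apply card_le_card
  intro t ht
  obtain ⟨h3, h4, h5, h6⟩ := mem_filter.1 ht
  exact mem_filter.2 ⟨h3, h4, h5, good_of h6⟩

end Pool.Agent.Results.MP_3efbeb_nt.ExtendOneThird
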