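import Mathlib
import Pool.Agent.N900.MF.Main2

/-!
# Prime triples in any `3560` linear forms, prime quadruples in any `exp 12.58` linear forms

Theorem of helper900 (moved from another problem of the pool). `m = 2`: prime triples, `m = 3`: prime quadruples.

For `m ≥ 2` every admissible family of `K ≥ exp (4 m + 29 / 50)` linear forms, and for `m = 2` every
admissible family of `3560` linear forms, contains `m + 1` forms which are simultaneously prime for at least
`x / (log x) ^ B` of the numbers `n ≤ x`. The forms may be chosen inside any admissible subfamily `S` with at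
least `K` members of a finite family, such that no form outside `S` has a prime value, and with exactness for
a fixed set of forms.

The polynomial certificates for `3560` forms and the analysis for `exp (4 m + 0.58)` forms are those of
`Pool.Agent.H358R5` (starting files), where they give `x ^ (1 - ε)` good integers; the counts
`x / (log x) ^ B` come from the fourth moment of the weights (`Pool.Agent.Y876.HS.moment`, starting files).
-/

set_option autoImplicit false

namespace Pool.Agent.Results.MP_3efbeb_nt.ManyOfAnyForms

open Filter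

/-- For all `m ≥ 2` and `K` such that `K ≥ exp (4 m + 0.58)`, or `m = 2` and `K = 3560`, there is `B` such that,
for every finite family of pairwise non-proportional linear forms `a i * X + b i` with integer coefficients,
`a i > 0`, and every subfamily `S` with at least `K` members such that for every prime `p` some `n ∈ ℕ` makes
the values of the forms of `S` prime to `p`: for all large `x` there are at least `x / (log x) ^ B` natural
numbers `n ≤ x` for which at least `m + 1` of the numbers `|a i * n + b i|`, `i ∈ S`, and none of the numbers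
`|a i * n + b i|`, `i ∉ S`, are prime. Moreover there is a fixed `T ⊆ S` with at least `m + 1` elements such
that, for arbitrarily large `x`, there are at least `x / (log x) ^ B` natural numbers `n ≤ x` for which
`|a i * n + b i|` is prime if and only if `i ∈ T`. -/
theorem result (m K : ℕ) (hm : 2 ≤ m) (hK : Real.exp (4 * m + 29 / 50) ≤ K ∨ m = 2 ∧ K = 3560) :
    ∃ B : ℕ, ∀ (ι : Type) [Fintype ι] (a b : ι → ℤ),
    (∀ i, 0 < a i) → (∀ i j, i ≠ j → a i * b j ≠ a j * b i) → ∀ S : Finset ι, K ≤ S.card →
    (∀ p : ℕ, p.Prime → ∃ n : ℕ, ∀ i ∈ S, ¬ (p : ℤ) ∣ a i * n + b i) →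
    (∀ᶠ x : ℝ in atTop, x / Real.log x ^ B ≤ (Set.ncard {n : ℕ | (n : ℝ) ≤ x ∧
      m + 1 ≤ Set.ncard {i : ι | i ∈ S ∧ (a i * (n : ℤ) + b i).natAbs.Prime} ∧
      ∀ i ∉ S, ¬ (a i * (n : ℤ) + b i).natAbs.Prime} : ℝ)) ∧
    ∃ T : Finset ι, T ⊆ S ∧ m + 1 ≤ T.card ∧ ∃ᶠ x : ℝ in atTop,
      x / Real.log x ^ B ≤ (Set.ncard {n : ℕ | (n : ℝ) ≤ x ∧
        ∀ i, (a i * (n : ℤ) + b i).natAbs.Prime ↔ i ∈ T} : ℝ) := by
  have h : Pool.Agent.Y876.FF.LH m K (Pool.Agent.N900.MF.CC K) := by
    rcases hK with hK | ⟨rfl, rfl⟩
    · have hpos : (0 : ℝ) < (K : ℝ) := lt_of_lt_of_le (Real.exp_pos _) hK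
      exact Pool.Agent.N900.MF.lh_many m K hm ((Real.le_log_iff_exp_le hpos).2 hK)
    · exact Pool.Agent.N900.MF.lh3
  exact ⟨Pool.Agent.N900.MF.CC K + 3, fun ι _ a b ha hne S hS hloc =>
    Pool.Agent.Y876.FF.exact_forms h a b ha hne S hS hloc⟩

end Pool.Agent.Results.MP_3efbeb_nt.ManyOfAnyForms
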